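import Mathlib
import Pool.Agent.helper4.LRK.Fejer

set_option autoImplicit false
set_option linter.unusedVariables false

/-!
# Module S of MP_0ec205_nt: positivity of the Fejér mean of the ordinate sum
-/

noncomputable section

namespace Pool.Agent.helper26.LRS

open MeasureTheory Set Pool.Agent.helper4.LRK

theorem series_continuous (m : ℝ → ℕ) {H : ℝ} (hH : 0 < H)
    (hs : Summable fun γ : ℝ => (m γ : ℝ) * Real.exp (-(γ ^ 2 / H ^ 2))) :
    Continuous fun x : ℝ => ∑' γ : ℝ, (m γ : ℝ) * (Real.exp (-(γ ^ 2 / H ^ 2)) * Real.cos (x * γ)) := by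
  refine continuous_tsum (u := fun γ : ℝ => (m γ : ℝ) * Real.exp (-(γ ^ 2 / H ^ 2)))
    (fun γ => by fun_prop) hs (fun γ x => ?_)
  rw [← mul_assoc, norm_mul, Real.norm_of_nonneg (by positivity)]
  exact mul_le_of_le_one_right (by positivity) (Real.abs_cos_le_one _)

lemma term_integral {X : ℝ} (hX : 0 < X) (s γ : ℝ) :
    ∫ x in (-X)..X, (1 - |x| / X) * Real.cos (x * s) * Real.cos (x * γ) =
      X / 2 * (fej X (s - γ) + fej X (s + γ)) := by
  have h1 : ∀ x : ℝ, (1 - |x| / X) * Real.cos (x * s) * Real.cos (x * γ) =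
      2⁻¹ * ((1 - |x| / X) * Real.cos (x * (s - γ)) + (1 - |x| / X) * Real.cos (x * (s + γ))) := by
    intro x
    have e1 : Real.cos (x * (s - γ)) = Real.cos (x * s) * Real.cos (x * γ) +
        Real.sin (x * s) * Real.sin (x * γ) := by rw [mul_sub, Real.cos_sub]
    have e2 : Real.cos (x * (s + γ)) = Real.cos (x * s) * Real.cos (x * γ) -
        Real.sin (x * s) * Real.sin (x * γ) := by rw [mul_add, Real.cos_add]
    rw [e1, e2]
    ring
  simp_rw [h1]
  rw [intervalIntegral.integral_const_mul, intervalIntegral.integral_add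
    (Continuous.intervalIntegrable (by fun_prop) _ _)
    (Continuous.intervalIntegrable (by fun_prop) _ _)]
  unfold fej
  generalize (∫ x in (-X)..X, (1 - |x| / X) * Real.cos (x * (s - γ))) = A
  generalize (∫ x in (-X)..X, (1 - |x| / X) * Real.cos (x * (s + γ))) = B
  field_simp

lemma term_nonneg {X : ℝ} (hX : 0 < X) (s γ : ℝ) :
    0 ≤ X / 2 * (fej X (s - γ) + fej X (s + γ)) := by
  have h1 := fej_nonneg hX (s - γ)
  have h2 := fej_nonneg hX (s + γ)
  positivity

theorem series_pos (m : ℝ → ℕ) (hm : ∀ γ, m (-γ) = m γ) {H : ℝ} (hH : 0 < H)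
    (hs : Summable fun γ : ℝ => (m γ : ℝ) * Real.exp (-(γ ^ 2 / H ^ 2))) {X : ℝ} (hX : 0 < X)
    (s : ℝ) :
    X * ((m s : ℝ) * Real.exp (-(s ^ 2 / H ^ 2))) ≤
      ∫ x in (-X)..X, (1 - |x| / X) * Real.cos (x * s) *
        ∑' γ : ℝ, (m γ : ℝ) * (Real.exp (-(γ ^ 2 / H ^ 2)) * Real.cos (x * γ)) := by
  classical
  set a : ℝ → ℝ := fun γ => (m γ : ℝ) * Real.exp (-(γ ^ 2 / H ^ 2)) with ha
  have ha0 : ∀ γ, 0 ≤ a γ := fun γ => by positivity
  set F : ℝ → ℝ → ℝ := fun γ x => a γ * ((1 - |x| / X) * Real.cos (x * s) * Real.cos (x * γ)) with hF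
  set S : Set ℝ := Function.support a with hS
  have hScount : Countable S := hs.countable_support.to_subtype
  have hsumm : ∀ x : ℝ, Summable fun γ : ℝ =>
      (m γ : ℝ) * (Real.exp (-(γ ^ 2 / H ^ 2)) * Real.cos (x * γ)) := by
    intro x
    refine Summable.of_norm_bounded hs fun γ => ?_
    rw [← mul_assoc, norm_mul, Real.norm_of_nonneg (by positivity)]
    exact mul_le_of_le_one_right (by positivity) (Real.abs_cos_le_one _)
  have hsumF : ∀ x : ℝ, HasSum (fun γ : ℝ => F γ x) ((1 - |x| / X) * Real.cos (x * s) *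
        ∑' γ : ℝ, (m γ : ℝ) * (Real.exp (-(γ ^ 2 / H ^ 2)) * Real.cos (x * γ))) := by
    intro x
    have h1 := (hsumm x).hasSum.mul_left ((1 - |x| / X) * Real.cos (x * s))
    have h2 : (fun γ : ℝ => F γ x) = fun γ : ℝ => (1 - |x| / X) * Real.cos (x * s) *
        ((m γ : ℝ) * (Real.exp (-(γ ^ 2 / H ^ 2)) * Real.cos (x * γ))) := by
      funext γ
      simp only [hF, ha]
      ring
    rw [h2]
    exact h1
  have key : HasSum (fun γ : S => ∫ x in (-X)..X, F γ x)
      (∫ x in (-X)..X, (1 - |x| / X) * Real.cos (x * s) *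
        ∑' γ : ℝ, (m γ : ℝ) * (Real.exp (-(γ ^ 2 / H ^ 2)) * Real.cos (x * γ))) := by
    refine intervalIntegral.hasSum_integral_of_dominated_convergence
      (fun (γ : S) _ => a γ) (fun γ => Continuous.aestronglyMeasurable (by fun_prop))
      (fun γ => Filter.Eventually.of_forall fun x hx => ?_)
      (Filter.Eventually.of_forall fun x _ => hs.subtype S) (by simp)
      (Filter.Eventually.of_forall fun x _ => ?_)
    · rw [uIoc_of_le (by linarith)] at hx
      have hx1 : |x| ≤ X := abs_le.2 ⟨hx.1.le, hx.2⟩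
      have h2 : |(1 - |x| / X)| ≤ 1 := by
        rw [abs_le]
        have h3 : |x| / X ≤ 1 := (div_le_one hX).2 hx1
        have h4 : 0 ≤ |x| / X := by positivity
        constructor <;> linarith
      simp only [hF, Real.norm_eq_abs, abs_mul, abs_of_nonneg (ha0 γ)]
      refine mul_le_of_le_one_right (ha0 γ) ?_
      have h5 := Real.abs_cos_le_one (x * s)
      have h6 := Real.abs_cos_le_one (x * (γ : ℝ))
      calc |(1 - |x| / X)| * |Real.cos (x * s)| * |Real.cos (x * (γ : ℝ))| ≤ 1 * 1 * 1 := by gcongr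
        _ = 1 := by norm_num
    · refine (hasSum_subtype_iff_of_support_subset (f := fun γ : ℝ => F γ x) ?_).2 (hsumF x)
      intro γ hγ
      rw [Function.mem_support] at hγ ⊢
      intro h0
      apply hγ
      simp only [hF, h0, zero_mul]
  have key2 : HasSum (fun γ : ℝ => a γ * (X / 2 * (fej X (s - γ) + fej X (s + γ))))
      (∫ x in (-X)..X, (1 - |x| / X) * Real.cos (x * s) *
        ∑' γ : ℝ, (m γ : ℝ) * (Real.exp (-(γ ^ 2 / H ^ 2)) * Real.cos (x * γ))) := by
    refine (hasSum_subtype_iff_of_support_subset (s := S) ?_).1 ?_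
    · intro γ hγ
      rw [Function.mem_support] at hγ ⊢
      intro h0
      apply hγ
      simp only [h0, zero_mul]
    · convert key using 2 with γ
      simp only [Function.comp_apply, hF, intervalIntegral.integral_const_mul, term_integral hX]
  have hnn : ∀ γ : ℝ, 0 ≤ a γ * (X / 2 * (fej X (s - γ) + fej X (s + γ))) :=
    fun γ => mul_nonneg (ha0 γ) (term_nonneg hX s γ)
  have h7 := sum_le_hasSum {s, -s} (fun γ _ => hnn γ) key2
  refine le_trans ?_ h7
  have hneg : a (-s) = a s := by simp only [ha, hm, neg_sq]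
  have hf2 := fej_nonneg hX (s + s)
  rcases eq_or_ne s 0 with h0 | h0
  · rw [h0, neg_zero]
    simp only [Finset.pair_eq_singleton, Finset.sum_singleton, sub_self, add_zero, fej_zero hX]
    apply le_of_eq
    ring
  · have h8 : s ≠ -s := by
      intro h; apply h0; linarith
    rw [Finset.sum_pair h8, hneg]
    simp only [sub_self, sub_neg_eq_add, ← sub_eq_add_neg, fej_zero hX]
    have h9 : 0 ≤ a s * X := mul_nonneg (ha0 s) hX.le
    nlinarith [mul_nonneg h9 hf2]

end Pool.Agent.helper26.LRS
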